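import Pool.Agent.Q98.SPN.Stm

/-!
# PLA: Plancherel formula for a unitary model of the group algebra
-/

set_option autoImplicit false

open scoped Matrix.Norms.L2Operator Matrix
open Finset

namespace Pool.Agent.Q65.SPN

open Pool.Agent.Q98.SPN Pool.Agent.H172R2.GS

theorem PLA_ok (h1 : S_TRM) (h2 : S_TRG) (h3 : S_ADJ) : S_PLA := by
  intro G _ _ k d Ψ hΨ a
  obtain ⟨ha, hb⟩ := h3 G k d Ψ hΨ a
  have hc : Ψ.toLinearEquiv.conj (LinearMap.mulLeft ℂ (adj a * a)) =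
      LinearMap.mulLeft ℂ (Ψ (adj a * a)) := by
    refine LinearMap.ext fun x => ?_
    rw [LinearEquiv.conj_apply_apply, LinearMap.mulLeft_apply, LinearMap.mulLeft_apply]
    change Ψ (adj a * a * Ψ.symm x) = _
    rw [map_mul, AlgEquiv.apply_symm_apply]
  have ht := LinearMap.trace_conj' (LinearMap.mulLeft ℂ (adj a * a)) Ψ.toLinearEquiv
  rw [hc, h1 k d, h2 G, hb] at ht
  have he : ∀ i, Ψ (adj a * a) i = (Ψ a i)ᴴ * Ψ a i := by
    intro i
    rw [map_mul, Pi.mul_apply, ha]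
  simp only [he] at ht
  have hr := congrArg Complex.re ht
  rw [Complex.re_sum] at hr
  have h4 : ((Fintype.card G : ℂ) * ((∑ g, ‖a.coeff g‖ ^ 2 : ℝ) : ℂ)).re =
      (Fintype.card G : ℝ) * ∑ g, ‖a.coeff g‖ ^ 2 := by
    rw [← Complex.ofReal_natCast, ← Complex.ofReal_mul, Complex.ofReal_re]
  rw [← h4, ← hr]
  refine sum_congr rfl fun i _ => ?_
  rw [← Complex.ofReal_natCast, Complex.re_ofReal_mul]

end Pool.Agent.Q65.SPN
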