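import Pool.Agent.Q98.SPN.Stm

/-!
# WED: the complex group algebra is a product of matrix algebras
-/

set_option autoImplicit false

open scoped Matrix.Norms.L2Operator Matrix
open Finset

namespace Pool.Agent.Q65.SPN

open Pool.Agent.Q98.SPN Pool.Agent.H172R2.GS

theorem WED_ok : S_WED := by
  intro G _ _ _
  have : NeZero (Nat.card G : ℂ) := ⟨by
    rw [Nat.card_eq_fintype_card]
    exact_mod_cast Fintype.card_ne_zero⟩
  have : Module.Finite ℂ (MonoidAlgebra ℂ G) :=
    Module.Finite.of_basis (MonoidAlgebra.basis G ℂ)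
  obtain ⟨k, d, hd, ⟨e⟩⟩ :=
    IsSemisimpleRing.exists_algEquiv_pi_matrix_of_isAlgClosed ℂ (MonoidAlgebra ℂ G)
  refine ⟨k, d, e, fun i => Nat.pos_of_ne_zero (hd i).out, ?_⟩
  have h1 := e.toLinearEquiv.finrank_eq
  rw [Module.finrank_pi_fintype] at h1
  simp only [Module.finrank_matrix, Module.finrank_self, Fintype.card_fin, mul_one] at h1
  rw [← Module.finrank_eq_card_basis (MonoidAlgebra.basis G ℂ), h1]
  exact sum_congr rfl fun i _ => by ring

end Pool.Agent.Q65.SPN
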